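import Pool.Agent.Helper4.TG.HTAB
import Pool.Agent.Helper33.TG.HTRG

/-!
# Project TG (MP_a41896_nt), CM version: HTR, unconditional
-/

set_option autoImplicit false

namespace Pool.Agent.Helper92.TG.MainH

theorem th_HTAB : Pool.Agent.Helper92.TG.HTAB := Pool.Agent.Helper4.TG.HTAB.t

theorem th_HTR : Pool.Agent.Helper42.TG.HTR := Pool.Agent.Helper33.TG.HTRG.t th_HTAB

end Pool.Agent.Helper92.TG.MainH
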