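import Pool.Agent.Helper42.TG.DefsR

/-!
# Project TG (MP_a41896_nt): the toolkit for combinations inside the classes (`cmbR`, `TFamR`, `cmb`, `TFam`)
-/

set_option autoImplicit false

namespace Pool.Agent.Helper92.TG

open Pool.Agent.Helper42.TG

section R

variable {ι τ : Type} [DecidableEq ι] [Fintype τ] {R M : ι → Type} [∀ c, CommRing (R c)]
  [∀ c, AddCommGroup (M c)] (ac : ∀ c, R c →+* AddMonoid.End (M c)) (cl : τ → ι)

/-! ## Linearity in the coefficients -/

theorem cmbR_zero (w : ∀ j, M (cl j)) (c : ι) : cmbR ac cl w c (fun _ => 0) = 0 := by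
  refine Finset.sum_eq_zero fun j _ => ?_
  split_ifs with h
  · rw [map_zero]; rfl
  · rfl

theorem cmbR_add (w : ∀ j, M (cl j)) (c : ι) (n n' : τ → R c) :
    cmbR ac cl w c (fun j => n j + n' j) = cmbR ac cl w c n + cmbR ac cl w c n' := by
  unfold cmbR
  rw [← Finset.sum_add_distrib]
  refine Finset.sum_congr rfl fun j _ => ?_
  split_ifs with h
  · rw [map_add]; rfl
  · rw [add_zero]

theorem cmbR_neg (w : ∀ j, M (cl j)) (c : ι) (n : τ → R c) :
    cmbR ac cl w c (fun j => - n j) = - cmbR ac cl w c n := by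
  rw [eq_neg_iff_add_eq_zero, ← cmbR_add]
  simp only [neg_add_cancel]
  exact cmbR_zero ac cl w c

theorem cmbR_sub (w : ∀ j, M (cl j)) (c : ι) (n n' : τ → R c) :
    cmbR ac cl w c (fun j => n j - n' j) = cmbR ac cl w c n - cmbR ac cl w c n' := by
  simp only [sub_eq_add_neg]
  rw [cmbR_add, cmbR_neg]

theorem cmbR_mul (w : ∀ j, M (cl j)) (c : ι) (r : R c) (n : τ → R c) :
    cmbR ac cl w c (fun j => r * n j) = ac c r (cmbR ac cl w c n) := by
  unfold cmbR
  rw [map_sum]
  refine Finset.sum_congr rfl fun j _ => ?_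
  split_ifs with h
  · rw [map_mul]; rfl
  · rw [map_zero]

theorem cmbR_sum {κ : Type} (s : Finset κ) (w : ∀ j, M (cl j)) (c : ι) (n : κ → τ → R c) :
    cmbR ac cl w c (fun j => ∑ i ∈ s, n i j) = ∑ i ∈ s, cmbR ac cl w c (n i) := by
  classical
  induction s using Finset.induction_on with
  | empty =>
    simp only [Finset.sum_empty]
    exact cmbR_zero ac cl w c
  | insert i s hi ih =>
    rw [Finset.sum_insert hi, ← ih, ← cmbR_add]
    simp only [Finset.sum_insert hi]

theorem cmbR_congr (w : ∀ j, M (cl j)) (c : ι) {n n' : τ → R c}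
    (h : ∀ j, cl j = c → n j = n' j) : cmbR ac cl w c n = cmbR ac cl w c n' := by
  refine Finset.sum_congr rfl fun j _ => ?_
  split_ifs with h1
  · rw [h j h1]
  · rfl

/-- a single coefficient -/
theorem cmbR_single [DecidableEq τ] (w : ∀ j, M (cl j)) (b : τ) (r : R (cl b)) :
    cmbR ac cl w (cl b) (fun j => if j = b then r else 0) = ac (cl b) r (w b) := by
  unfold cmbR
  rw [Finset.sum_eq_single b]
  · rw [dif_pos rfl]
    simp only [if_pos rfl]
    rfl
  · intro j _ hj
    split_ifs with h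
    · simp only [if_neg hj]
      rw [map_zero]; rfl
    · rfl
  · intro h
    exact absurd (Finset.mem_univ b) h

theorem cmbR_one [DecidableEq τ] (w : ∀ j, M (cl j)) (b : τ) :
    cmbR ac cl w (cl b) (fun j => if j = b then 1 else 0) = w b := by
  rw [cmbR_single, map_one]
  rfl

/-- if all coefficients outside `b` vanish (in the class) -/
theorem cmbR_of_single [DecidableEq τ] (w : ∀ j, M (cl j)) (b : τ) (n : τ → R (cl b))
    (h : ∀ j, j ≠ b → cl j = cl b → n j = 0) :
    cmbR ac cl w (cl b) n = ac (cl b) (n b) (w b) := by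
  rw [← cmbR_single]
  refine cmbR_congr ac cl w _ fun j hj => ?_
  by_cases h1 : j = b
  · rw [if_pos h1, h1]
  · rw [if_neg h1, h j h1 hj]

/-! ## Combinations of combinations -/

/-- transport of a coefficient -/
def cst {R : ι → Type} {c c' : ι} (h : c = c') (r : R c) : R c' := h ▸ r

theorem cst_rfl {R : ι → Type} {c : ι} (r : R c) : cst (R := R) rfl r = r := rfl

theorem cst_zero {c c' : ι} (h : c = c') : cst (R := R) h (0 : R c) = 0 := by
  subst h; rfl

theorem cst_eq_zero {c c' : ι} (h : c = c') (r : R c) : cst (R := R) h r = 0 ↔ r = 0 := by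
  subst h; rfl

/-- the coefficients of a combination of combinations -/
def ncomp {τ' : Type} [Fintype τ'] (cl' : τ' → ι) (n : ∀ i : τ', τ → R (cl' i)) (c : ι)
    (m : τ' → R c) (j : τ) : R c :=
  ∑ i, if h : cl' i = c then m i * cst (R := R) h (n i j) else 0

/-- a combination of combinations is a combination -/
theorem cmbR_comp {τ' : Type} [Fintype τ'] (cl' : τ' → ι) (w : ∀ j, M (cl j))
    (n : ∀ i : τ', τ → R (cl' i)) (c : ι) (m : τ' → R c) :
    cmbR ac cl' (fun i => cmbR ac cl w (cl' i) (n i)) c m =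
      cmbR ac cl w c (ncomp cl' n c m) := by
  have h1 : ncomp (τ := τ) cl' n c m = fun j =>
      ∑ i, if h : cl' i = c then m i * cst (R := R) h (n i j) else 0 := rfl
  rw [h1, cmbR_sum]
  refine Finset.sum_congr rfl fun i _ => ?_
  by_cases h : cl' i = c
  · subst h
    simp only [dif_pos rfl]
    rw [← cmbR_mul]
    rfl
  · simp only [dif_neg h]
    exact (cmbR_zero ac cl w c).symm

/-! ## Homomorphisms -/

/-- transport by equivariant homomorphisms -/
theorem cmbR_map {M' : ι → Type} [∀ c, AddCommGroup (M' c)]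
    (ac' : ∀ c, R c →+* AddMonoid.End (M' c)) (φ : ∀ c, M c →+ M' c)
    (hφ : ∀ c (r : R c) (x : M c), φ c (ac c r x) = ac' c r (φ c x)) (w : ∀ j, M (cl j)) (c : ι)
    (n : τ → R c) : φ c (cmbR ac cl w c n) = cmbR ac' cl (fun j => φ (cl j) (w j)) c n := by
  unfold cmbR
  rw [map_sum]
  refine Finset.sum_congr rfl fun j _ => ?_
  split_ifs with h
  · subst h
    exact hφ _ _ _
  · exact map_zero _

/-! ## Totally fast families -/

variable {ac cl}

theorem tfR_mono {C C' : ∀ c, Set (M c)} {w : ∀ j, M (cl j)} (h : TFamR ac C cl w)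
    (hC : ∀ c, C' c ⊆ C c) : TFamR ac C' cl w :=
  fun c n hn h1 => h c n hn (hC c h1)

/-- extension of coefficients by `0` along `f` -/
theorem cmbR_extend {τ' : Type} [Fintype τ'] [DecidableEq τ] (f : τ' → τ)
    (hf : Function.Injective f) (w : ∀ j, M (cl j)) (c : ι) (n : τ' → R c) :
    cmbR ac (fun i => cl (f i)) (fun i => w (f i)) c n =
      cmbR ac cl w c (fun j => ∑ i, if f i = j then n i else 0) := by
  unfold cmbR
  have h1 : ∀ j ∉ Finset.univ.image f,
      (if h : cl j = c then ac c (∑ i, if f i = j then n i else 0) (h ▸ w j : M c) else 0) =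
        0 := by
    intro j hj
    split_ifs with h
    · rw [Finset.sum_eq_zero, map_zero]; · rfl
      intro i _
      rw [if_neg]
      intro h2
      exact hj (Finset.mem_image.2 ⟨i, Finset.mem_univ i, h2⟩)
    · rfl
  rw [← Finset.sum_subset (Finset.subset_univ (Finset.univ.image f)) (fun j _ hj => h1 j hj),
    Finset.sum_image (fun i _ i' _ h => hf h)]
  refine Finset.sum_congr rfl fun i _ => ?_
  split_ifs with h
  · rw [Finset.sum_eq_single i]
    · rw [if_pos rfl]
    · intro i' _ hi'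
      rw [if_neg]
      intro h2
      exact hi' (hf h2)
    · intro h2
      exact absurd (Finset.mem_univ i) h2
  · rfl

/-- subfamilies -/
theorem tfR_comp {τ' : Type} [Fintype τ'] {C : ∀ c, Set (M c)} {w : ∀ j, M (cl j)}
    (h : TFamR ac C cl w) (f : τ' → τ) (hf : Function.Injective f) :
    TFamR ac C (fun i => cl (f i)) (fun i => w (f i)) := by
  classical
  rintro c n ⟨i, hi, hn⟩ h1
  rw [cmbR_extend f hf w c n] at h1
  refine h c _ ⟨f i, hi, ?_⟩ h1
  rw [Finset.sum_eq_single i]
  · rw [if_pos rfl]; exact hn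
  · intro i' _ hi'
    rw [if_neg]
    intro h2
    exact hi' (hf h2)
  · intro h2
    exact absurd (Finset.mem_univ i) h2

/-- a member is not in `C` -/
theorem tfR_notMem [∀ c, Nontrivial (R c)] {C : ∀ c, Set (M c)} {w : ∀ j, M (cl j)}
    (h : TFamR ac C cl w) (b : τ) : w b ∉ C (cl b) := by
  classical
  have h1 := h (cl b) (fun j => if j = b then 1 else 0) ⟨b, rfl, by
    rw [if_pos rfl]; exact one_ne_zero⟩
  rwa [cmbR_one] at h1

/-- a nonzero multiple of a member is not in `C` -/
theorem tfR_mul_notMem {C : ∀ c, Set (M c)} {w : ∀ j, M (cl j)}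
    (h : TFamR ac C cl w) (b : τ) (r : R (cl b)) (hr : r ≠ 0) : ac (cl b) r (w b) ∉ C (cl b) := by
  classical
  have h1 := h (cl b) (fun j => if j = b then r else 0) ⟨b, rfl, by
    rw [if_pos rfl]; exact hr⟩
  rwa [cmbR_single] at h1

/-- transport of totally fast families by equivariant homomorphisms -/
theorem tfamR_map {M' : ι → Type} [∀ c, AddCommGroup (M' c)]
    (ac' : ∀ c, R c →+* AddMonoid.End (M' c)) (φ : ∀ c, M c →+ M' c)
    (hφ : ∀ c (r : R c) (x : M c), φ c (ac c r x) = ac' c r (φ c x)) {C : ∀ c, Set (M c)}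
    {C' : ∀ c, Set (M' c)} (hC : ∀ c x, φ c x ∈ C' c ↔ x ∈ C c) (w : ∀ j, M (cl j)) :
    TFamR ac' C' cl (fun j => φ (cl j) (w j)) ↔ TFamR ac C cl w := by
  unfold TFamR
  refine forall_congr' fun c => forall_congr' fun n => imp_congr_right fun _ => ?_
  rw [← cmbR_map ac cl ac' φ hφ w c n, hC]

/-- **combinations with independent coefficients** -/
theorem tfR_of_comb {τ' : Type} [Fintype τ'] {C : ∀ c, Set (M c)} {w : ∀ j, M (cl j)}
    (h : TFamR ac C cl w) (cl' : τ' → ι) (n : ∀ i : τ', τ → R (cl' i))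
    (hn : ∀ (c : ι) (m : τ' → R c), (∃ i, cl' i = c ∧ m i ≠ 0) →
      ∃ j, cl j = c ∧ ncomp cl' n c m j ≠ 0) :
    TFamR ac C cl' (fun i => cmbR ac cl w (cl' i) (n i)) := by
  intro c m hm h1
  rw [cmbR_comp] at h1
  exact h c _ (hn c m hm) h1

/-- **triangular replacement**: `l_a = N_a w_a + (combination of the members in T)`, `a ∉ T` -/
theorem tfR_triangular [DecidableEq τ] [∀ c, IsDomain (R c)] {C : ∀ c, Set (M c)}
    {w : ∀ j, M (cl j)} (h : TFamR ac C cl w) (T : Finset τ)
    (n : ∀ a : {a : τ // a ∉ T}, τ → R (cl a)) (hN : ∀ a : {a : τ // a ∉ T}, n a a ≠ 0)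
    (hn : ∀ (a : {a : τ // a ∉ T}) (b : τ), b ∉ T → b ≠ a → n a b = 0) :
    TFamR ac C (fun a : {a : τ // a ∉ T} => cl a)
      (fun a => cmbR ac cl w (cl a) (n a)) := by
  refine tfR_of_comb h (fun a : {a : τ // a ∉ T} => cl a) n ?_
  rintro c m ⟨a, ha, hm⟩
  refine ⟨a, ha, ?_⟩
  unfold ncomp
  rw [Finset.sum_eq_single a]
  · rw [dif_pos ha]
    refine mul_ne_zero hm ?_
    rw [Ne, cst_eq_zero]
    exact hN a
  · intro a' _ ha'
    split_ifs with h1
    · rw [hn a' a a.2 (fun h2 => ha' (Subtype.ext h2).symm), cst_zero, mul_zero]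
    · rfl
  · intro h1
    exact absurd (Finset.mem_univ a) h1

/-- **two members of one class**: if `T` is a totally fast family of combinations of `y` with two members of the class `c` then `y` has
two members of the class `c` -/
theorem tfR_two [∀ c, IsDomain (R c)] {σ : Type} [Fintype σ] {cs : σ → ι}
    {y : ∀ j, M (cs j)} {C : ∀ c, Set (M c)} (h0 : ∀ c, (0 : M c) ∈ C c)
    (n : ∀ i : τ, σ → R (cl i))
    (h : TFamR ac C cl (fun i => cmbR ac cs y (cl i) (n i))) {i i' : τ} (hi : i ≠ i')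
    (hc : cl i = cl i') : ∃ j j', j ≠ j' ∧ cs j = cl i ∧ cs j' = cl i := by
  classical
  by_contra hcon
  push Not at hcon
  -- the coefficients
  have hi0 := tfR_notMem h i
  have hex : ∃ j, cs j = cl i := by
    by_contra hno
    push Not at hno
    apply hi0
    have : cmbR ac cs y (cl i) (n i) = 0 := by
      rw [cmbR_congr ac cs y (cl i) (n' := fun _ => 0) (fun j hj => absurd hj (hno j))]
      exact cmbR_zero ac cs y _
    show cmbR ac cs y (cl i) (n i) ∈ C (cl i)
    rw [this]
    exact h0 _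
  obtain ⟨j, hj⟩ := hex
  have huniq : ∀ j', cs j' = cl i → j' = j := by
    intro j' hj'
    by_contra hne
    exact hcon j j' (fun h => hne h.symm) hj hj'
  -- the combination `n i' j * u i - n i j * u i'`
  set r : R (cl i) := n i j with hr
  set r' : R (cl i) := cst (R := R) hc.symm (n i' j) with hr'
  have hr0 : r ≠ 0 := by
    intro hr0
    apply hi0
    have : cmbR ac cs y (cl i) (n i) = 0 := by
      rw [cmbR_congr ac cs y (cl i) (n' := fun _ => 0) (fun j' hj' => by
        rw [huniq j' hj', ← hr, hr0])]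
      exact cmbR_zero ac cs y _
    show cmbR ac cs y (cl i) (n i) ∈ C (cl i)
    rw [this]
    exact h0 _
  have h1 := h (cl i) (fun k => if k = i then r' else if k = i' then - r else 0)
    ⟨i', hc.symm, by
      rw [if_neg (Ne.symm hi), if_pos rfl]
      exact neg_ne_zero.2 hr0⟩
  apply h1
  rw [cmbR_comp]
  rw [cmbR_congr ac cs y (cl i) (n' := fun _ => 0) (fun j' hj' => ?_)]
  · rw [cmbR_zero]
    exact h0 _
  · rw [huniq j' hj']
    unfold ncomp
    rw [← Finset.add_sum_erase _ _ (Finset.mem_univ i),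
      ← Finset.add_sum_erase _ _ (Finset.mem_erase.2 ⟨Ne.symm hi, Finset.mem_univ i'⟩),
      Finset.sum_eq_zero]
    · rw [dif_pos rfl, dif_pos hc.symm]
      simp only [if_true, if_neg (Ne.symm hi), cst_rfl]
      rw [← hr, ← hr']
      ring
    · intro k hk
      rw [Finset.mem_erase, Finset.mem_erase] at hk
      simp only [if_neg hk.2.1, if_neg hk.1]
      split_ifs
      · rw [zero_mul]
      · rfl

/-- **a maximal totally fast subfamily**: every other member has a nonzero multiple which is a combination of the members of `T`, modulo `C` -/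
theorem exists_max (ac : ∀ c, R c →+* AddMonoid.End (M c)) (cl : τ → ι) [DecidableEq τ]
    (C : ∀ c, Set (M c)) (w : ∀ j, M (cl j)) :
    ∃ T : Finset τ, TFamR ac C (fun b : {b : τ // b ∈ T} => cl b) (fun b => w b) ∧
      ∀ a ∉ T, ∃ n : τ → R (cl a), n a ≠ 0 ∧ (∀ b, b ∉ T → b ≠ a → n b = 0) ∧
        cmbR ac cl w (cl a) n ∈ C (cl a) := by
  classical
  let P : Finset τ → Prop := fun T =>
    TFamR ac C (fun b : {b : τ // b ∈ T} => cl b) (fun b => w b)
  have hne : (Finset.univ.filter P).Nonempty := by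
    refine ⟨∅, Finset.mem_filter.2 ⟨Finset.mem_univ _, ?_⟩⟩
    rintro c n ⟨j, -, -⟩
    exact absurd j.2 (Finset.notMem_empty _)
  obtain ⟨T, hT, hmax⟩ := Finset.exists_max_image _ Finset.card hne
  rw [Finset.mem_filter] at hT
  refine ⟨T, hT.2, fun a ha => ?_⟩
  have h1 : ¬ P (insert a T) := by
    intro h1
    have h2 := hmax _ (Finset.mem_filter.2 ⟨Finset.mem_univ _, h1⟩)
    rw [Finset.card_insert_of_notMem ha] at h2
    omega
  have h2 : ∃ (c : ι) (n : {b : τ // b ∈ insert a T} → R c),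
      (∃ j : {b : τ // b ∈ insert a T}, cl j = c ∧ n j ≠ 0) ∧
      cmbR ac (fun b : {b : τ // b ∈ insert a T} => cl b) (fun b => w b) c n ∈ C c := by
    by_contra hcon
    push Not at hcon
    exact h1 fun c n hn => hcon c n hn
  obtain ⟨c, n, ⟨j, hj, hnj⟩, hmem⟩ := h2
  set n' : τ → R c := fun b => if h : b ∈ insert a T then n ⟨b, h⟩ else 0 with hn'
  have hext : cmbR ac (fun b : {b : τ // b ∈ insert a T} => cl b) (fun b => w b) c n =
      cmbR ac cl w c n' := by
    rw [cmbR_extend (ac := ac) (cl := cl) (fun b : {b : τ // b ∈ insert a T} => (b : τ))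
      Subtype.val_injective w c n]
    refine cmbR_congr ac cl w c fun b _ => ?_
    rw [hn']
    simp only
    by_cases hb : b ∈ insert a T
    · rw [dif_pos hb, Finset.sum_eq_single (⟨b, hb⟩ : {b : τ // b ∈ insert a T})]
      · rw [if_pos rfl]
      · intro b' _ hb'
        rw [if_neg]
        intro h
        exact hb' (Subtype.ext h)
      · intro h
        exact absurd (Finset.mem_univ _) h
    · rw [dif_neg hb, Finset.sum_eq_zero]
      intro b' _
      rw [if_neg]
      intro h
      exact hb (h ▸ b'.2)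
  rw [hext] at hmem
  -- `cl a = c` and `n' a ≠ 0`
  have key : cl a = c ∧ n' a ≠ 0 := by
    by_contra hcon
    have h3 : cmbR ac cl w c n' = cmbR ac (fun b : {b : τ // b ∈ T} => cl b)
        (fun b => w b) c (fun b => n' b) := by
      rw [cmbR_extend (ac := ac) (cl := cl) (fun b : {b : τ // b ∈ T} => (b : τ))
        Subtype.val_injective w c (fun b => n' b)]
      refine cmbR_congr ac cl w c fun b hb => ?_
      by_cases hbT : b ∈ T
      · rw [Finset.sum_eq_single (⟨b, hbT⟩ : {b : τ // b ∈ T})]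
        · rw [if_pos rfl]
        · intro b' _ hb'
          rw [if_neg]
          intro h
          exact hb' (Subtype.ext h)
        · intro h
          exact absurd (Finset.mem_univ _) h
      · rw [Finset.sum_eq_zero]
        · by_cases hba : b = a
          · by_contra h4
            exact hcon ⟨hba ▸ hb, hba ▸ h4⟩
          · rw [hn']
            simp only
            rw [dif_neg]
            intro h5
            rcases Finset.mem_insert.1 h5 with h5 | h5
            · exact hba h5
            · exact hbT h5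
        · intro b' _
          rw [if_neg]
          intro h
          exact hbT (h ▸ b'.2)
    rw [h3] at hmem
    refine hT.2 c (fun b => n' b) ?_ hmem
    have hjT : (j : τ) ∈ T := by
      rcases Finset.mem_insert.1 j.2 with h5 | h5
      · exfalso
        refine hcon ⟨h5 ▸ hj, ?_⟩
        rw [hn']
        simp only
        rw [dif_pos (Finset.mem_insert_self a T)]
        intro h6
        apply hnj
        have h7 : j = ⟨a, Finset.mem_insert_self a T⟩ := Subtype.ext h5
        rw [h7]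
        exact h6
      · exact h5
    refine ⟨⟨j, hjT⟩, hj, ?_⟩
    rw [hn']
    simp only
    rw [dif_pos j.2]
    exact hnj
  obtain ⟨hca, hna⟩ := key
  subst hca
  refine ⟨n', hna, ?_, hmem⟩
  intro b hb hba
  rw [hn']
  simp only
  rw [dif_neg]
  intro h5
  rcases Finset.mem_insert.1 h5 with h5 | h5
  · exact hba h5
  · exact hb h5

end R

/-! ## Integer coefficients -/

section Z

variable {ι τ : Type} [DecidableEq ι] [Fintype τ] {M : ι → Type} [∀ c, AddCommGroup (M c)]

/-- the action of `ℤ` -/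
def acZ (M : ι → Type) [∀ c, AddCommGroup (M c)] (c : ι) : ℤ →+* AddMonoid.End (M c) :=
  Int.castRingHom _

theorem acZ_apply (c : ι) (n : ℤ) (x : M c) : acZ M c n x = n • x := by
  show ((n : ℤ) : AddMonoid.End (M c)) x = n • x
  exact AddMonoid.End.intCast_apply n x

theorem cmb_eq (cl : τ → ι) (w : ∀ j, M (cl j)) (c : ι) (n : τ → ℤ) :
    cmb cl w c n = cmbR (R := fun _ => ℤ) (acZ M) cl w c n := by
  unfold cmb cmbR
  refine Finset.sum_congr rfl fun j _ => ?_
  split_ifs with h
  · rw [acZ_apply]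
  · rfl

theorem tfam_iff (C : ∀ c, Set (M c)) (cl : τ → ι) (w : ∀ j, M (cl j)) :
    TFam C cl w ↔ TFamR (R := fun _ => ℤ) (acZ M) C cl w := by
  unfold TFam TFamR
  simp only [cmb_eq]

theorem acZ_equiv {M' : ι → Type} [∀ c, AddCommGroup (M' c)] (φ : ∀ c, M c →+ M' c) (c : ι)
    (r : ℤ) (x : M c) : φ c (acZ M c r x) = acZ M' c r (φ c x) := by
  rw [acZ_apply, acZ_apply, map_zsmul]

/-- transport of integer combinations by homomorphisms -/
theorem cmb_map {M' : ι → Type} [∀ c, AddCommGroup (M' c)] (φ : ∀ c, M c →+ M' c)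
    (cl : τ → ι) (w : ∀ j, M (cl j)) (c : ι) (n : τ → ℤ) :
    φ c (cmb cl w c n) = cmb cl (fun j => φ (cl j) (w j)) c n := by
  rw [cmb_eq, cmb_eq]
  exact cmbR_map (acZ M) cl (acZ M') φ (acZ_equiv φ) w c n

theorem tfam_map {M' : ι → Type} [∀ c, AddCommGroup (M' c)] (φ : ∀ c, M c →+ M' c)
    (cl : τ → ι) {C : ∀ c, Set (M c)} {C' : ∀ c, Set (M' c)}
    (hC : ∀ c x, φ c x ∈ C' c ↔ x ∈ C c) (w : ∀ j, M (cl j)) :
    TFam C' cl (fun j => φ (cl j) (w j)) ↔ TFam C cl w := by
  rw [tfam_iff, tfam_iff]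
  exact tfamR_map (acZ M') φ (acZ_equiv φ) hC w

/-- a combination of combinations is a combination -/
theorem cmb_comp {τ' : Type} [Fintype τ'] (cl : τ → ι) (cl' : τ' → ι) (w : ∀ j, M (cl j))
    (n : τ' → τ → ℤ) (c : ι) (m : τ' → ℤ) :
    cmb cl' (fun i => cmb cl w (cl' i) (n i)) c m =
      cmb cl w c (fun j => ∑ i, if cl' i = c then m i * n i j else 0) := by
  rw [cmb_eq]
  simp only [cmb_eq cl w]
  rw [cmbR_comp (R := fun _ => ℤ) (acZ M) cl cl' w n c m]
  refine cmbR_congr (R := fun _ => ℤ) (acZ M) cl w c fun j _ => ?_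
  unfold ncomp
  refine Finset.sum_congr rfl fun i _ => ?_
  by_cases h : cl' i = c
  · subst h
    rw [dif_pos rfl, if_pos rfl, cst_rfl]
  · rw [dif_neg h, if_neg h]

theorem tf_comp {τ' : Type} [Fintype τ'] {cl : τ → ι} {C : ∀ c, Set (M c)}
    {w : ∀ j, M (cl j)} (h : TFam C cl w) (f : τ' → τ) (hf : Function.Injective f) :
    TFam C (fun i => cl (f i)) (fun i => w (f i)) := by
  rw [tfam_iff] at h ⊢
  exact tfR_comp h f hf

theorem tf_notMem {cl : τ → ι} {C : ∀ c, Set (M c)} {w : ∀ j, M (cl j)} (h : TFam C cl w)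
    (b : τ) : w b ∉ C (cl b) := by
  rw [tfam_iff] at h
  exact tfR_notMem (R := fun _ => ℤ) h b

/-- **triangular replacement**, integer coefficients -/
theorem tf_triangular [DecidableEq τ] {cl : τ → ι} {C : ∀ c, Set (M c)} {w : ∀ j, M (cl j)}
    (h : TFam C cl w) (T : Finset τ) (n : {a : τ // a ∉ T} → τ → ℤ)
    (hN : ∀ a : {a : τ // a ∉ T}, n a a ≠ 0)
    (hn : ∀ (a : {a : τ // a ∉ T}) (b : τ), b ∉ T → b ≠ a → n a b = 0) :
    TFam C (fun a : {a : τ // a ∉ T} => cl a) (fun a => cmb cl w (cl a) (n a)) := by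
  rw [tfam_iff] at h ⊢
  simp only [cmb_eq cl w]
  exact tfR_triangular (R := fun _ => ℤ) h T n hN hn

theorem tf_two {cl : τ → ι} {σ : Type} [Fintype σ] {cs : σ → ι} {y : ∀ j, M (cs j)}
    {C : ∀ c, Set (M c)} (h0 : ∀ c, (0 : M c) ∈ C c) (n : τ → σ → ℤ)
    (h : TFam C cl (fun i => cmb cs y (cl i) (n i))) {i i' : τ} (hi : i ≠ i')
    (hc : cl i = cl i') : ∃ j j', j ≠ j' ∧ cs j = cl i ∧ cs j' = cl i := by
  rw [tfam_iff] at h
  simp only [cmb_eq cs y] at h
  exact tfR_two (R := fun _ => ℤ) h0 n h hi hc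

theorem exists_maxZ (cl : τ → ι) [DecidableEq τ] (C : ∀ c, Set (M c)) (w : ∀ j, M (cl j)) :
    ∃ T : Finset τ, TFam C (fun b : {b : τ // b ∈ T} => cl b) (fun b => w b) ∧
      ∀ a ∉ T, ∃ n : τ → ℤ, n a ≠ 0 ∧ (∀ b, b ∉ T → b ≠ a → n b = 0) ∧
        cmb cl w (cl a) n ∈ C (cl a) := by
  obtain ⟨T, h1, h2⟩ := exists_max (R := fun _ => ℤ) (acZ M) cl C w
  refine ⟨T, (tfam_iff _ _ _).2 h1, fun a ha => ?_⟩
  obtain ⟨n, h3, h4, h5⟩ := h2 a ha
  exact ⟨n, h3, h4, by rw [cmb_eq]; exact h5⟩

end Z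

/-! ## Sequences -/

section seq

variable {ι τ : Type} [DecidableEq ι] [Fintype τ] {M : ι → Type} [∀ c, AddCommGroup (M c)]

/-- the value of a combination of sequences at `k` -/
theorem cmb_apply (cl : τ → ι) (w : ∀ j, ℕ → M (cl j)) (c : ι) (n : τ → ℤ) (k : ℕ) :
    cmb (M := fun c => ℕ → M c) cl w c n k = cmb cl (fun j => w j k) c n := by
  have := cmb_map (M := fun c => ℕ → M c) (M' := M)
    (fun c => (Pi.evalAddMonoidHom (fun _ : ℕ => M c) k)) cl w c n
  exact this

end seq

end Pool.Agent.Helper92.TG
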