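import Pool.Agent.Helper42.TG.DefsM
import Pool.Agent.Helper92.TN.GoalsH

/-!
# Project TG (MP_a41896_nt), CM version: the ring of endomorphisms (EXR) and heights (HTR), goals

`ρ : Endo W` is a natural endomorphism of the groups `W(F)`, `F ⊇ K`.  A point `P` with `x(P)` transcendental over `K` is called generic.
(1) generic points: `x(ρ P) = (A/B)(x(P))`, `ψ(ρ P) = ψ(P) (C/E)(x(P))` (naturality, EMB, IPN, DEC: RGEN).  (2) `zd D (ρ P) = c(x(P)) zd D P`; two
independent points: `c` is a constant `r ∈ K`, and `r ≠ 0` if `ρ ≠ 0` (GPQ, DER, DIF, ZER).  (3) all points: `P = (P + Q) - Q`, `Q` generic and close to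
`0` for a valuation ring `V ⊇ F` (CONT, EXTS, DEGX, RATA).  (4) heights (HTAB, HTRG).

`xc`, `ps` are the coordinates `x` and `ψ = 2y + a₁x + a₃` (`xc 0 = 0`, `ps 0 = 0`), `WL F W` is the curve over `F`, `IP G P`: `P = 0` or both
coordinates are in `G`, `zd D P = D x(P) / ψ(P)`.  Landed theorems which may be used everywhere (import them): `Pool.Agent.Helper92.TN.MainI`:
`th_ACLA`, `th_ACLB`, `th_ACLP` (points and algebraic closures, statements in `Helper92/TN/GoalsH.lean`); `Pool.Agent.Helper60.T3`: `th_SUBF`,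
`th_DADD` (`zd D` is additive), `th_DEX` (`Helper60/T3/Ind.lean`, statements in `Helper60/T3/GoalsI.lean`);
`Pool.Agent.Helper12.SGB.th_ELAW`, `th_EDUP`; `Pool.Agent.Helper25.TG.THX` (the relation of `x(P), x(Q), x(P+Q)`).
-/

set_option autoImplicit false

open Polynomial

namespace Pool.Agent.Helper92.TG

open WeierstrassCurve Height
open Pool.Agent.Helper29.BL Pool.Agent.Helper42.SG
open Pool.Agent.Helper60.T3 (WL zd IP)
open Pool.Agent.Helper42.TG (Endo EndsOverK RAct RAll acK)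

noncomputable section

/-! ## Definitions -/

section defs

variable {K : Type} [Field K] {W : Affine K}

/-- the image of a point under an embedding of the fields -/
abbrev mp {F F' : Type} [Field F] [DecidableEq F] [Algebra K F] [Field F'] [DecidableEq F']
    [Algebra K F'] (j : F →ₐ[K] F') (P : (WL F W).Point) : (WL F' W).Point :=
  Affine.Point.map (W' := W) j P

/-- `ρ` kills the generic points -/
def GZ (ρ : Endo W) : Prop :=
  ∀ (F : Type) [Field F] [DecidableEq F] [Algebra K F] (P : (WL F W).Point),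
    Transcendental K (xc P) → ρ.f F P = 0

/-- first formula at the generic points -/
def GF0 (ρ : Endo W) (A B C E : K[X]) : Prop :=
  ∀ (F : Type) [Field F] [DecidableEq F] [Algebra K F] (P : (WL F W).Point),
    Transcendental K (xc P) → ρ.f F P ≠ 0 ∧
      xc (ρ.f F P) * aeval (xc P) B = aeval (xc P) A ∧
      ps (ρ.f F P) * aeval (xc P) E = aeval (xc P) C * ps P

/-- second formula at the generic points -/
def GF (ρ : Endo W) (A B : K[X]) (r : K) : Prop :=
  ∀ (F : Type) [Field F] [DecidableEq F] [Algebra K F] (P : (WL F W).Point),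
    Transcendental K (xc P) → ρ.f F P ≠ 0 ∧
      xc (ρ.f F P) * aeval (xc P) B = aeval (xc P) A ∧
      algebraMap K F r * ps (ρ.f F P) * aeval (xc P) B ^ 2 =
        aeval (xc P) (derivative A * B - A * derivative B) * ps P

/-- the formula at all points -/
def AF (ρ : Endo W) (A B : K[X]) (r : K) : Prop :=
  ∀ (F : Type) [Field F] [DecidableEq F] [Algebra K F] (P : (WL F W).Point), P ≠ 0 →
    (ρ.f F P = 0 ↔ aeval (xc P) B = 0) ∧ (ρ.f F P ≠ 0 →
      xc (ρ.f F P) * aeval (xc P) B = aeval (xc P) A ∧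
      algebraMap K F r * ps (ρ.f F P) * aeval (xc P) B ^ 2 =
        aeval (xc P) (derivative A * B - A * derivative B) * ps P)

/-- `r` is the derivative of `ρ` -/
def Dv (ρ : Endo W) (r : K) : Prop :=
  ∀ (F : Type) [Field F] [DecidableEq F] [Algebra K F] (D : Derivation K F F)
    (P : (WL F W).Point), zd D (ρ.f F P) = algebraMap K F r * zd D P

end defs

/-! ## Generic points -/

/-- **EMB**: embeddings with a given image of the generic point. No hypotheses. (Compare the proof of TAUT, `Pool/Agent/Helper9/TN/TAUT.lean`: it contains the sign automorphism.)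
PROOF. `x := xc P`, `x' := xc P'`, both transcendental over `K` (so `P, P' ≠ 0`). `K(x) ≅ K(x')` over `K`, `x ↦ x'` (`AlgebraicIndependent.aevalEquivField` or `RatFunc`), so `F'` is an algebra over `K(x) = IntermediateField.adjoin K {x}`; `F` is algebraic over `K(x)`: `IsAlgClosed.lift`: `j₁ : F → F'` over `K`, `j₁ x = x'`. `ps P ^ 2 = B(x)`, `ps P' ^ 2 = B(x')` (`ps_sq`), so `j₁ (ps P) = ± ps P'`. If the sign is `-`: `B(x)` (degree `3` in `x`) is not a square in `K(x)`, so `ps P` and `- ps P` are conjugate over `K(x)` and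
there is an automorphism `σ` of `F` over `K(x)` with `σ (ps P) = - ps P` (`F` is an algebraic closure of `K(x)`, so normal; e.g. `isConjRoot_iff_exists_algEquiv`, or adjoin-root lift and `IsAlgClosed.lift`; note that only a homomorphism `F → F'` over `K(x)` with `ps P ↦ ps P'` is needed: `minpoly K(x) (ps P) = X² - B(x)`, `IntermediateField.exists_algHom_of_splits`-type lemmas). A point is determined by `xc`, `ps` (`2 ≠ 0`): `map j P = P'`. -/
def EMB : Prop :=
  ∀ (K : Type) [Field K] [CharZero K] (W : Affine K), W.IsElliptic → ∀ (F F' : Type) [Field F]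
    [IsAlgClosed F] [DecidableEq F] [Algebra K F] [Field F'] [IsAlgClosed F'] [DecidableEq F']
    [Algebra K F'] (P : (WL F W).Point) (P' : (WL F' W).Point), Transcendental K (xc P) →
    Transcendental K (xc P') →
    (∀ z : F, IsAlgebraic (IntermediateField.adjoin K ({xc P} : Set F)) z) →
    ∃ j : F →ₐ[K] F', mp j P = P'

/-- **IPN**: `ρ P` has coordinates in the field of the coordinates of `P`. No hypotheses.
PROOF. `P = 0`: `ρ 0 = 0`. Otherwise `P = some x y`, `x ∈ G`, `2y + a₁x + a₃ ∈ G`, so `y ∈ G` (`2 ≠ 0`). `P_G := some x y` over `G` (nonsingular: `Affine.map_nonsingular`-type lemma for the injective map `G.val`), `Affine.Point.map G.val P_G = P`, so `ρ P = Affine.Point.map G.val (ρ P_G)` (`ρ.nat`) has coordinates in `G`. (`Classical.decEq G`.) -/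
def IPN : Prop :=
  ∀ (K : Type) [Field K] [CharZero K] (W : Affine K) (ρ : Endo W) (F : Type) [Field F]
    [DecidableEq F] [Algebra K F] (G : IntermediateField K F) (P : (WL F W).Point),
    IP (G : Set F) P → IP (G : Set F) (ρ.f F P)

/-- **DEC**: the field `K(x, ψ)`. No hypotheses.
PROOF. The set of the `u + v ψ`, `u, v ∈ K(x)`, is a field (`ψ² = β(x) ∈ K(x)`; the inverse of a nonzero `u + v ψ`: if `u² - v² ψ² ≠ 0` it is `(u - v ψ) / (u² - v² β)`; if it is `0` then `u + v ψ ≠ 0` gives `u = v ψ`, `v ≠ 0`, `ψ = u / v ∈ K(x)`, excluded because `σ` is the identity on `K(x)` and `σ ψ = - ψ ≠ ψ`), so it is `K(x, ψ)`; or `K(x, ψ) = K(x)(ψ)` and `IntermediateField.adjoin` simple algebraic: `z` is a polynomial in `ψ` over `K(x)`, reduce by `ψ²`. `z = u + v ψ`, `σ z = u - v ψ`. `σ z = z`: `v = 0`; `σ z = - z`: `u = 0`.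
Elements of `K(x)` are quotients `aeval x A / aeval x B` (`IntermediateField.mem_adjoin_simple_iff`); divide `A, B` by their gcd: coprime. -/
def DEC : Prop :=
  ∀ (K F : Type) [Field K] [CharZero K] [Field F] [Algebra K F] (x ψ z : F) (β : K[X])
    (σ : F →ₐ[K] F), Transcendental K x → ψ ≠ 0 → ψ ^ 2 = aeval x β → σ x = x → σ ψ = -ψ →
    z ∈ IntermediateField.adjoin K ({x, ψ} : Set F) →
    (σ z = z → ∃ A B : K[X], IsCoprime A B ∧ B ≠ 0 ∧ z * aeval x B = aeval x A) ∧
    (σ z = -z → ∃ C E : K[X], E ≠ 0 ∧ z * aeval x E = aeval x C * ψ)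

/-- **RGEN**: `ρ` at the generic points. Hypotheses allowed: EMB, IPN, DEC.
PROOF. `F₀ :=` an algebraic closure of `RatFunc K` (or of `FractionRing K[X]`), `x₀` the variable, `P₀` a point with `xc P₀ = x₀` (`F₀` algebraically closed, elliptic: nonsingular). EMB (`F' = F₀`, `P' = -P₀`, `xc (-P₀) = xc P₀`, `ps (-P₀) = - ps P₀`): `σ : F₀ → F₀` over `K` with `σ(P₀) = - P₀`. `ρ P₀` has coordinates in `K(x₀, ψ₀)` (IPN) and `σ(ρ P₀) = ρ(σ P₀) = - ρ P₀` (`ρ.nat`), so `σ (xc (ρ P₀)) = xc (ρ P₀)`, `σ (ps (ρ P₀)) = - ps (ρ P₀)`. DEC (`ψ₀ ≠ 0` because `B(x₀) ≠ 0`): `A, B, C, E`.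
ALL GENERIC POINTS: `P ∈ W(F)`, `F̄ := AlgebraicClosure F`, `P̄` the image of `P`; EMB: `j : F₀ → F̄` with `j(P₀) = P̄`; `ρ P̄ = j(ρ P₀)` and `ρ P̄` is the image of `ρ P`. `xc (map j P) = j (xc P)`, the same for `ps`. So `ρ P₀ = 0` iff `ρ P = 0` (`map` is injective), and the formulas for `P₀` are mapped to the formulas for `P̄`, which are the images of the formulas for `P` (`F → F̄` injective). -/
def RGEN : Prop :=
  ∀ (K : Type) [Field K] [CharZero K] (W : Affine K), W.IsElliptic → ∀ ρ : Endo W,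
    GZ ρ ∨ ∃ A B C E : K[X], IsCoprime A B ∧ B ≠ 0 ∧ E ≠ 0 ∧ GF0 ρ A B C E

/-! ## The derivative -/

/-- **GPQ**: two independent points. Landed: `th_ACLA`, `th_ACLB`, `th_ACLP`, `th_DEX`.
PROOF. `L := AlgebraicClosure (FractionRing (MvPolynomial (Fin 2) K))`, `X, Y` the variables, `P, Q` points with `xc P = X`, `xc Q = Y`. `ps P ≠ 0` (`ps P ^ 2 = B(X) ≠ 0`). DEX with `κ := acl K {Y}` (algebraically closed, ACLA), `x = X` (transcendental over `κ`: ACLA, ACLB (1)), `v = 1`: a derivation over `κ` with `D X = 1`, `D Y = 0`; restrict the scalars to `K`. `zd D P = 1 / ps P ≠ 0`, `zd D Q = 0`. `D'` in the same way. If `xc (P + Q)` is algebraic over `K` then `P + Q` has coordinates in `acl K ∅` (ACLP (1)), so `P = (P + Q) - Q` has coordinates in `acl K {Y}` (ACLP (3)): contradiction. The same for `P - Q`.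
`2 P`: ACLP (2) with `e = 1`. (`z ∈ acl K ∅` iff `z` is algebraic over `K`: ACLA (1), `adjoin K ∅ = ⊥`.) -/
def GPQ : Prop :=
  ∀ (K : Type) [Field K] [CharZero K] (W : Affine K), W.IsElliptic →
    ∃ (L : Type) (_ : Field L) (_ : DecidableEq L) (_ : Algebra K L) (P Q : (WL L W).Point)
      (D D' : Derivation K L L), AlgebraicIndependent K ![xc P, xc Q] ∧
      zd D P ≠ 0 ∧ zd D Q = 0 ∧ zd D' P = 0 ∧ zd D' Q ≠ 0 ∧
      Transcendental K (xc (P + Q)) ∧ Transcendental K (xc (P - Q)) ∧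
      Transcendental K (xc (P + P))

/-- **DER**: the derivative of `ρ` is a constant `r ≠ 0`. Hypothesis allowed: GPQ. Landed: `th_DADD`.
PROOF. `P, Q, D, D'` of GPQ. (0) `C ≠ 0`: otherwise `ps (ρ P) = 0` (`E(x) ≠ 0`, `x := xc P` transcendental), so `ρ (P + P) = ρ P + ρ P = 0` (a point `T` with `ps T = 0` has `T = -T`), but `P + P` is generic. (1) Let `M := B² C ≠ 0`, `N := (A' B - A B') E`. For every generic point `R` and derivation `D`: `D (xc ρR) B(x)² = (A'B - AB')(x) D x` (apply `D` to `xc ρR * B(x) = A(x)` and multiply by `B(x)`; `D (aeval x A) = aeval x A' * D x`), `ps (ρR) E(x) = C(x) ps R`, `ps (ρR) ≠ 0`: `zd D (ρ R) M(x) = N(x) zd D R` (`x = xc R`).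
(2) `zd D (P + Q) = zd D P`, `zd D (ρ(P + Q)) = zd D (ρ P) + zd D (ρ Q)`, `zd D (ρ Q) M(xc Q) = N(xc Q) zd D Q = 0`, so `zd D (ρ Q) = 0`, `zd D (ρ(P+Q)) = zd D (ρ P)`; so `N(u) / M(u) = N(xc P) / M(xc P)` for `u := xc (P + Q)`. With `D'`: `N(u) / M(u) = N(xc Q) / M(xc Q)`. So `N(xc P) M(xc Q) = N(xc Q) M(xc P)`, and by independence `N(X) M(Y) = N(Y) M(X)` in `K[X, Y]`; put `Y = y₁ ∈ K` with `M(y₁) ≠ 0` (`K` infinite): `N = r M`, `r = N(y₁) / M(y₁)`.
(3) the second formula: `r ps(ρR) B² E = r B² C ps R = N ps R = (A'B - AB') E ps R` at `xc R`, divide by `E(x) ≠ 0`. (4) `A'B - AB' ≠ 0` and `r ≠ 0`: if `A'B = AB'` then `B ∣ B'` (coprime), so `B' = 0`, `B` is a constant, `A' = 0`, `A` is a constant (characteristic `0`): `xc (ρ R) = c₀` is the same element of `K` for all generic `R`. So `xc (ρ P) = xc (ρ Q)`, `ρ P = ± ρ Q`, `ρ(P - Q) = 0` or `ρ(P + Q) = 0`: contradiction. `r ≠ 0` because `N ≠ 0`. -/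
def DER : Prop :=
  ∀ (K : Type) [Field K] [CharZero K] (W : Affine K), W.IsElliptic → ∀ (ρ : Endo W)
    (A B C E : K[X]), IsCoprime A B → B ≠ 0 → E ≠ 0 → GF0 ρ A B C E →
    derivative A * B - A * derivative B ≠ 0 ∧ ∃ r : K, r ≠ 0 ∧ GF ρ A B r

/-- **DIF**: `zd D (ρ P) = r zd D P` at all points. Hypothesis allowed: IPN.
PROOF. (1) `P` not generic: `xc P` is algebraic over `K`, so `ps P` is (`ps P ^ 2 = B(xc P)`), and the elements of `K(xc P, ps P)` are; IPN with `G = K(xc P, ps P)`: `xc (ρ P)` is algebraic over `K` (or `ρ P = 0`, `xc 0 = 0`). `D` kills the elements which are algebraic over `K` (characteristic `0`): both sides are `0` (`zd D P = D (xc P) / ps P`). (2) `P` generic, `GZ`: `ρ P = 0`, `zd D 0 = 0`. (3) `P` generic, `x := xc P`, `B(x) ≠ 0`, `ps P ≠ 0` (`ps P ^ 2 = B(x)`, a nonzero polynomial in `x`), `ps (ρ P) ≠ 0` by the second formula (`A'B - AB' ≠ 0`). Apply `D` to `xc (ρ P) B(x) = A(x)`,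
multiply by `B(x)`: `D (xc ρP) B(x)² = (A'B - AB')(x) D x`; times `ps P`: `= r ps(ρ P) B(x)² D x`. Divide by `B(x)² ps P ps (ρ P)`. -/
def DIF : Prop :=
  ∀ (K : Type) [Field K] [CharZero K] (W : Affine K), W.IsElliptic → ∀ ρ : Endo W,
    (GZ ρ → Dv ρ 0) ∧ ∀ (A B : K[X]) (r : K), B ≠ 0 →
      derivative A * B - A * derivative B ≠ 0 → GF ρ A B r → Dv ρ r

/-! ## All points -/

/-- **VAL**: a valuation ring. No hypotheses.
PROOF. `s ≠ 0`. `A := ` the subring of `Ω` generated by the image of `F` and `s⁻¹`, i.e. the range of `aeval s⁻¹ : F[X] → Ω` (injective: `s⁻¹` is transcendental over `F`); `I := ` the ideal generated by `s⁻¹`, `I ≠ ⊤` (otherwise `1 = s⁻¹ p(s⁻¹)`, a relation). `Ideal.image_subset_nonunits_valuationSubring`: `V ⊇ A`, `s⁻¹ ∈ V.nonunits`, so `s ∉ V` (`ValuationSubring.mem_nonunits_iff`, `V.valuation s⁻¹ < 1`). -/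
def VAL : Prop :=
  ∀ (F Ω : Type) [Field F] [Field Ω] [Algebra F Ω] (s : Ω), Transcendental F s →
    ∃ V : ValuationSubring Ω, (∀ c : F, algebraMap F Ω c ∈ V) ∧ s ∉ V

/-- **CONT**: if `Q` is close to `0` then `P + Q` is close to `P`. Landed: THX, `th_ELAW`, `th_SUBF`.
PROOF. `v := V.valuation`; `v z ≤ 1` iff `z ∈ V`; `v z = 1` for `z ∈ k`, `z ≠ 0`. `X := xc P`, `s := xc Q`, `v s > 1`, `w := s⁻¹`, `v w < 1`; `Q ≠ 0`, `P + Q ≠ 0` (otherwise `xc Q = xc (-P) ∈ k`). `T := xc (P + Q)`. (1) THX: `TH (X, s, T) = 0`; divide by `s²`: `α T² - β T + γ = 0` with `α = (1 - X w)²`, `β = 2X + w (2X² + b₂X + b₄ (1 + X w) + b₆ w)`, `γ = X² - w (b₄ X + b₆ (1 + X w) + b₈ w)` (check by `field_simp; ring` or `linear_combination`). `v α = 1`, `v β ≤ 1`, `v γ ≤ 1`: `v T ≤ 1` (if `v T > 1` then `v (α T²) = (v T)²` is larger than the others).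
Then `(T - X)² = w * (element of V)`: `v (T - X) < 1`. (2) ELAW with `e = 0`: for points `P₁, P₂ ≠ 0`, `P₁ + P₂ ≠ 0`: `2 (x₁ - x₂)² xc (P₁ + P₂) = Θ(x₁, x₂) - ps P₁ ps P₂`, `Θ(x, y) = 2 (x + y) x y + b₂ x y + b₄ (x + y) + b₆`, `Θ(x, x) = B(x) = ps²` (see the docstring of THX in `Helper3/TG/GoalsTr.lean` and its proof in `Pool/Agent/Helper25/TG/THX.lean`). Let `P₁ := P + Q`, `P₂ := P`. If `P + P ≠ 0`: `P₁ + P₂ = (P + P) + Q ≠ 0`, and (1) for `P + P` (`IP k`: SUBF) gives `v (xc (P₁ + P₂)) ≤ 1`, so `v (Θ(T, X) - ps P₁ ps P) < 1` (`v (T - X) < 1`), `v (Θ(T, X) - Θ(X, X)) < 1`: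
`v (ps P (ps P - ps P₁)) < 1`, and `v (ps P) = 1` (`ps P ≠ 0`, `ps P ∈ k`). If `P + P = 0`: `ps P = 0`, `ps P₁ ^ 2 = B(T)`, `v (B(T) - B(X)) < 1`, `B(X) = 0`. (`V` is closed under sums, products: `v (a + b) ≤ max`, `Valuation.map_add_lt` etc.) -/
def CONT : Prop :=
  ∀ (K Ω : Type) [Field K] [CharZero K] [Field Ω] [DecidableEq Ω] [Algebra K Ω] (W : Affine K)
    [W.IsElliptic] (V : ValuationSubring Ω) (k : IntermediateField K Ω), (∀ z ∈ k, z ∈ V) →
    ∀ P Q : (WL Ω W).Point, P ≠ 0 → IP (k : Set Ω) P → xc Q ∉ V →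
    P + Q ≠ 0 ∧ V.valuation (xc (P + Q) - xc P) < 1 ∧ V.valuation (ps (P + Q) - ps P) < 1

/-- **EXTS**: an extension with a generic point close to `0`. Hypothesis allowed: VAL. Landed: `th_ACLA`, `th_ACLP`.
PROOF. `Ω := AlgebraicClosure (RatFunc F)`, `j` the inclusion, `s` the variable (transcendental over `F`), `V` of VAL, `Q` a point with `xc Q = s` (`Ω` algebraically closed, elliptic: nonsingular). `s` is transcendental over `K`. Let `P ∈ W(F)`, `P' := map j P`. If `xc (P' + Q)` is algebraic over `K`, it is in `acl K (range j)`, `P'` has coordinates in it, so `Q = (P' + Q) - P'` has (ACLP (1), (3)), `s ∈ acl K (range j)`: `s` is algebraic over `F`, contradiction. -/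
def EXTS : Prop :=
  ∀ (K : Type) [Field K] [CharZero K] (W : Affine K), W.IsElliptic → ∀ (F : Type) [Field F]
    [DecidableEq F] [Algebra K F], ∃ (Ω : Type) (_ : Field Ω) (_ : DecidableEq Ω)
      (_ : Algebra K Ω) (j : F →ₐ[K] Ω) (V : ValuationSubring Ω) (Q : (WL Ω W).Point),
      (∀ c : F, j c ∈ V) ∧ xc Q ∉ V ∧ Transcendental K (xc Q) ∧
      ∀ P : (WL F W).Point,
        Transcendental K (xc (mp j P + Q))

/-- **ZER**: if `ρ` kills the generic points it is `0`. Hypothesis allowed: EXTS.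
PROOF. `P' := map j P`: `map j (ρ P) = ρ P' = ρ (P' + Q) - ρ Q = 0`, `map j` is injective (`Affine.Point.map_injective`). -/
def ZER : Prop :=
  ∀ (K : Type) [Field K] [CharZero K] (W : Affine K), W.IsElliptic → ∀ ρ : Endo W, GZ ρ →
    ∀ (F : Type) [Field F] [DecidableEq F] [Algebra K F] (P : (WL F W).Point), ρ.f F P = 0

/-- **DEGX**: `deg B < deg A`. Hypotheses allowed: CONT, EXTS. Landed: THX.
PROOF. `F := AlgebraicClosure (RatFunc K)`, `P₀ ∈ W(F)` with `xc P₀` the variable. EXTS: `Ω, j, V, Q`; `P := map j P₀`, `k := ` the range of `j` (`AlgHom.fieldRange`), `k ⊆ V`. Suppose `deg A ≤ deg B =: m`. `s := xc Q`, `v s > 1`: `s' := xc (ρ Q)`, `s' B(s) = A(s)`; `v (s' - c₀) < 1` with `c₀ := coeff A m / coeff B m ∈ K` (`A - c₀ B` has degree `< m`, `v (B(s)) = (v s)^m`, `v ((A - c₀ B)(s)) ≤ (v s)^(m-1)` (`= 0` if `m = 0`)). `u := xc (ρ P)`, `u B(x) = A(x)`, `x := xc P ∈ k`, `ρ P` has coordinates in `k` (`ρ.nat` for `j`).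
`T := xc (P + Q)`, CONT: `v (T - x) < 1`; `T' := xc (ρ (P + Q))`, `T' B(T) = A(T)`, `v (B(T) - B(x)) < 1`, `v (B(x)) = 1` (`x` transcendental): `v (T' - u) < 1`. THX for `ρ P, ρ Q, ρ P + ρ Q = ρ(P + Q)` (all `≠ 0` by GF, `P, Q, P + Q` are generic): `TH(u, s', T') = 0`, so `v (TH(u, c₀, u)) < 1`, and `TH(u, c₀, u) ∈ k`, so it is `0`. `TH(u, c₀, u) = u⁴ - 4 c₀ u³ + ..` is a monic polynomial of degree `4` in `u` over `K`, so `u` is algebraic over `K`; but then `A(x) = u B(x)` makes `x` algebraic over `K(u)`, so over `K`,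
unless `A - u B = 0` as a polynomial over `K(u)`; in that case `u ∈ K` (`B ≠ 0`, compare coefficients) and `A = u B`, `A'B - AB' = 0`: excluded. -/
def DEGX : Prop :=
  ∀ (K : Type) [Field K] [CharZero K] (W : Affine K), W.IsElliptic → ∀ (ρ : Endo W)
    (A B : K[X]) (r : K), IsCoprime A B → B ≠ 0 → derivative A * B - A * derivative B ≠ 0 →
    GF ρ A B r → B.natDegree < A.natDegree

/-- **RATA**: the formula at all points. Hypotheses allowed: CONT, EXTS.
PROOF. `P ∈ W(F)`, `P ≠ 0`; EXTS: `Ω, j, V, Q`; `P' := map j P`, `k := ` the range of `j` (`AlgHom.fieldRange`), `k ⊆ V`, `x := xc P' = j (xc P)`. `v := V.valuation`; an element `z ∈ k` with `v z < 1` is `0`. `s := xc Q`, `s' := xc (ρ Q)`, `s' B(s) = A(s)` (GF), `deg B < deg A`, `v s > 1`: `v s' > 1` (`v (A(s)) = (v s)^(deg A)`, `v (B(s)) = (v s)^(deg B)`: the coefficients in `K` have valuation `1` or are `0`). `T := xc (P' + Q)`; CONT: `v (T - x) < 1`, `v (ps (P' + Q) - ps P') < 1`. GF for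 `P' + Q` (generic): `xc (ρ(P' + Q)) B(T) = A(T)` and the formula for `ps`.
`ρ P' = map j (ρ P)` has coordinates in `k`. CASE `ρ P' ≠ 0`: CONT for `ρ P', ρ Q`: `v (xc (ρ P' + ρ Q) - xc (ρ P')) < 1`, the same for `ps`, and `ρ P' + ρ Q = ρ(P' + Q)`. All quantities are in `V`, polynomials over `K` are compatible with congruences modulo the maximal ideal: `v (xc (ρ P') B(x) - A(x)) < 1`, so `= 0` (an element of `k`), and in the same way `r ps(ρ P') B(x)² = (A'B - AB')(x) ps P'`. `B(x) ≠ 0`: otherwise `A(x) = 0`, a contradiction to `IsCoprime A B`. Pull back by `j` (injective). CASE `ρ P' = 0`: `ρ (P' + Q) = ρ Q`, `s' B(T) = A(T)`, `v (A(T)) ≤ 1`, `v s' > 1`: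
`v (B(T)) < 1`, `v (B(x)) < 1`, `B(x) = 0`. -/
def RATA : Prop :=
  ∀ (K : Type) [Field K] [CharZero K] (W : Affine K), W.IsElliptic → ∀ (ρ : Endo W)
    (A B : K[X]) (r : K), IsCoprime A B → B.natDegree < A.natDegree → GF ρ A B r → AF ρ A B r

/-! ## Heights -/

/-- **HTAB**: heights of `A(x)/B(x)`. No hypotheses.
PROOF. `n := deg A`. Forms `a(X, Y) = Y^n A(X/Y)`, `b(X, Y) = Y^n B(X/Y)` in `MvPolynomial (Fin 2) K` (homogeneous of degree `n`; `Polynomial.homogenize` or `∑ coeff_i X^i Y^(n-i)`). `logHeight₁ (A(x)/B(x)) = logHeight ![A(x), B(x)] = logHeight (fun i => eval ![x, 1] (p i))` (`logHeight₁_div_eq_logHeight`). UPPER: `Height.logHeight_eval_le` (Mathlib, `NumberTheory/Height/MvPolynomial.lean`). LOWER: `Height.logHeight_eval_ge'`: needs forms `q` of degree `M` with `∑_j q (k, j) p_j = X_k^(M + n)`, `k = 0, 1`. `U A + V B = 1` (coprime) and division by `A`: one may take `deg V < n = deg A`, then `deg U < deg B` or `U` a constant.. (`deg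 (U A) ≤ deg (V B)`), so `deg U, deg V ≤ n - 1`:
homogenised to degree `M = n - 1`: `U~ a + V~ b = Y^(2n - 1)` . For `X^(2n-1)`: the reversed polynomials `A*(Y) = a(1, Y)`, `B*(Y) = b(1, Y)` are coprime too (`A*(0) = ` the leading coefficient of `A` is not `0`, and a common root `y ≠ 0` would give the common root `1/y` of `A, B`; or: `gcd` divides ..), `deg A*, deg B* ≤ n`, `B*(0) = 0`: `U* A* + V* B* = 1` with `deg V* < deg A* ≤ n` and `deg U* < n` (divide with remainder; if `A*` is a constant take `U* = 1/A*`, `V* = 0`).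
ALTERNATIVE (no forms): any proof of `|logHeight₁ (A(x)/B(x)) - n logHeight₁ x| ≤ C`, for instance place by place with the landed lemmas on `cst`, `PlC` of `Helper42/SG`, or for the lower bound: `x` is a root of `A(X) - t B(X)`, `t = A(x)/B(x)`: gives only `logHeight₁ x ≤ logHeight₁ t + C`, not enough. -/
def HTAB : Prop :=
  ∀ (K : Type) [Field K] [NumberField K] (A B : K[X]), IsCoprime A B → B ≠ 0 →
    B.natDegree < A.natDegree → ∃ C : ℝ, ∀ x : K, eval x B ≠ 0 →
      |logHeight₁ (eval x A / eval x B) - A.natDegree * logHeight₁ x| ≤ C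

/-- **HTRG**: heights of `ρ P`. Hypothesis allowed: HTAB.
PROOF. `ρ ≠ 0`: `A, B` of `RAct.rat`, `n := A.natDegree ≥ 1` (`B ≠ 0`: otherwise `A` is a unit, degree `0`). CLAIM: there is `C` with `|H (ρ P) - n H P| ≤ C` for all `P`. `CanH.near`: it is enough for `hx` (`hx P` is `logHeight₁ (xc P)` up to the normalisation there). `P = 0`: `ρ 0 = 0`, both sides constants. `P ≠ 0`, `ρ P ≠ 0`: `xc (ρ P) = A(xc P) / B(xc P)` (`B(xc P) ≠ 0`), HTAB. `P ≠ 0`, `ρ P = 0`: `B(xc P) = 0`: `xc P` is one of the finitely many roots of `B ≠ 0`, so `hx P` is bounded. Then for all `m`: `H (ρ (2^m P)) = H (2^m ρ P) = 4^m H (ρ P)`, `H (2^m P) = 4^m H P` (`IsQuad`), so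
`4^m |H (ρ P) - n H P| ≤ C` for all `m`: equality. (`acK ac ρ P` is `ac K ρ P`.) -/
def HTRG : Prop := Pool.Agent.Helper42.TG.HTR

end

end Pool.Agent.Helper92.TG
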