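import Pool.Agent.Helper92.TG.GoalsX
import Pool.Agent.Helper60.T3.Ind

/-!
# Project TG (MP_a41896_nt), CM version: assembly of EXR
-/

set_option autoImplicit false

open Polynomial

namespace Pool.Agent.Helper92.TG

open WeierstrassCurve Height
open Pool.Agent.Helper29.BL Pool.Agent.Helper42.SG
open Pool.Agent.Helper60.T3 (WL zd IP)
open Pool.Agent.Helper42.TG (Endo EndsOverK RAct RAll acK EXR)

noncomputable section

section endo

variable {K : Type} [Field K] {W : Affine K}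

/-- the zero endomorphism -/
def ezero (W : Affine K) : Endo W :=
  ⟨fun F _ _ _ => 0, by
    intro F F' _ _ _ _ _ _ j P
    exact (map_zero (Affine.Point.map (W' := W) j)).symm⟩

/-- the identity -/
def eone (W : Affine K) : Endo W :=
  ⟨fun F _ _ _ => AddMonoidHom.id _, by
    intro F F' _ _ _ _ _ _ j P
    rfl⟩

/-- the sum -/
def eadd (ρ σ : Endo W) : Endo W :=
  ⟨fun F _ _ _ => ρ.f F + σ.f F, by
    intro F F' _ _ _ _ _ _ j P
    have h1 := ρ.nat F F' j P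
    have h2 := σ.nat F F' j P
    calc (ρ.f F' + σ.f F') (mp j P) = ρ.f F' (mp j P) + σ.f F' (mp j P) := rfl
      _ = mp j (ρ.f F P) + mp j (σ.f F P) := by
        exact congrArg₂ (· + ·) h1 h2
      _ = mp j (ρ.f F P + σ.f F P) :=
        (map_add (Affine.Point.map (W' := W) j) (ρ.f F P) (σ.f F P)).symm⟩

/-- the opposite -/
def eneg (ρ : Endo W) : Endo W :=
  ⟨fun F _ _ _ => -ρ.f F, by
    intro F F' _ _ _ _ _ _ j P
    have h1 := ρ.nat F F' j P
    calc (-ρ.f F') (mp j P) = -(ρ.f F' (mp j P)) := rfl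
      _ = -(mp j (ρ.f F P)) := congrArg Neg.neg h1
      _ = mp j (-(ρ.f F P)) := (map_neg (Affine.Point.map (W' := W) j) (ρ.f F P)).symm⟩

/-- the composition -/
def ecomp (ρ σ : Endo W) : Endo W :=
  ⟨fun F _ _ _ => (ρ.f F).comp (σ.f F), by
    intro F F' _ _ _ _ _ _ j P
    have h1 := ρ.nat F F' j (σ.f F P)
    have h2 := σ.nat F F' j P
    calc ((ρ.f F').comp (σ.f F')) (mp j P) = ρ.f F' (σ.f F' (mp j P)) := rfl
      _ = ρ.f F' (mp j (σ.f F P)) := congrArg (ρ.f F') h2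
      _ = mp j (ρ.f F (σ.f F P)) := h1⟩

theorem zd_zero {F : Type} [Field F] [Algebra K F] (D : Derivation K F F) :
    zd D (0 : (WL F W).Point) = 0 := by
  unfold zd
  rw [xc_zero, map_zero, zero_div]

theorem dv_zero : Dv (ezero W) 0 := by
  intro F _ _ _ D P
  rw [map_zero, zero_mul]
  exact zd_zero D

theorem dv_one : Dv (eone W) 1 := by
  intro F _ _ _ D P
  rw [map_one, one_mul]
  rfl

variable [CharZero K]

theorem dv_add (hW : W.IsElliptic) {ρ σ : Endo W} {r s : K} (h1 : Dv ρ r) (h2 : Dv σ s) :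
    Dv (eadd ρ σ) (r + s) := by
  intro F _ _ _ D P
  haveI := hW
  have h3 := Pool.Agent.Helper60.T3.th_DADD K F W D (ρ.f F P) (σ.f F P)
  rw [map_add, add_mul, ← h1 F D P, ← h2 F D P]
  exact h3

theorem dv_neg (hW : W.IsElliptic) {ρ : Endo W} {r : K} (h1 : Dv ρ r) :
    Dv (eneg ρ) (-r) := by
  intro F _ _ _ D P
  haveI := hW
  have h3 := Pool.Agent.Helper60.T3.th_DADD K F W D (ρ.f F P) (-(ρ.f F P))
  rw [add_neg_cancel, zd_zero, h1 F D P] at h3
  have h4 : zd D ((eneg ρ).f F P) = zd D (-(ρ.f F P)) := rfl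
  rw [h4, map_neg, neg_mul]
  linear_combination -h3

theorem dv_comp {ρ σ : Endo W} {r s : K} (h1 : Dv ρ r) (h2 : Dv σ s) :
    Dv (ecomp ρ σ) (r * s) := by
  intro F _ _ _ D P
  have h4 : zd D ((ecomp ρ σ).f F P) = zd D (ρ.f F (σ.f F P)) := rfl
  rw [h4, h1, h2, map_mul, mul_assoc]

end endo

section main

variable {K : Type} [Field K] [CharZero K] {W : Affine K}

theorem dv_unique (hG : GPQ) (hW : W.IsElliptic) {ρ : Endo W} {r s : K} (h1 : Dv ρ r)
    (h2 : Dv ρ s) : r = s := by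
  obtain ⟨L, _, _, _, P, Q, D, D', -, h3, -⟩ := hG K W hW
  have h4 := (h1 L D P).symm.trans (h2 L D P)
  exact (algebraMap K L).injective (mul_right_cancel₀ h3 h4)

theorem cls (hRG : RGEN) (hDER : DER) (hDIF : DIF) (hZER : ZER) (hDEG : DEGX) (hRAT : RATA)
    (hW : W.IsElliptic) (ρ : Endo W) : ∃ r, Dv ρ r ∧
      ((r = 0 ∧ ∀ (F : Type) [Field F] [DecidableEq F] [Algebra K F] (P : (WL F W).Point),
          ρ.f F P = 0) ∨
        (r ≠ 0 ∧ ∃ A B : K[X], IsCoprime A B ∧ B.natDegree < A.natDegree ∧ AF ρ A B r)) := by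
  rcases hRG K W hW ρ with h | ⟨A, B, C, E, hAB, hB, hE, h⟩
  · exact ⟨0, (hDIF K W hW ρ).1 h, Or.inl ⟨rfl, hZER K W hW ρ h⟩⟩
  · obtain ⟨hne, r, hr, hGF⟩ := hDER K W hW ρ A B C E hAB hB hE h
    have hdeg := hDEG K W hW ρ A B r hAB hB hne hGF
    exact ⟨r, (hDIF K W hW ρ).2 A B r hB hne hGF, Or.inr ⟨hr, A, B, hAB, hdeg,
      hRAT K W hW ρ A B r hAB hdeg hGF⟩⟩

end main

theorem exr (hRG : RGEN) (hDER : DER) (hDIF : DIF) (hZER : ZER) (hDEG : DEGX) (hRAT : RATA)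
    (hG : GPQ) : EXR := by
  intro K _ _ W hW
  have hcls := fun ρ : Endo W => cls hRG hDER hDIF hZER hDEG hRAT hW ρ
  have hzero : ∀ ρ : Endo W, Dv ρ 0 → ∀ (F : Type) [Field F] [DecidableEq F] [Algebra K F]
      (P : (WL F W).Point), ρ.f F P = 0 := by
    intro ρ h
    obtain ⟨r, h1, h2⟩ := hcls ρ
    have h3 := dv_unique hG hW h1 h
    rcases h2 with ⟨-, h2⟩ | ⟨h2, -⟩
    · exact h2
    · exact absurd h3 h2
  have hext : ∀ (ρ σ : Endo W) (r : K), Dv ρ r → Dv σ r → ∀ (F : Type) [Field F]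
      [DecidableEq F] [Algebra K F] (P : (WL F W).Point), ρ.f F P = σ.f F P := by
    intro ρ σ r h1 h2 F _ _ _ P
    have h3 := dv_add hW h1 (dv_neg hW h2)
    rw [add_neg_cancel] at h3
    have h4 := hzero _ h3 F P
    have h5 : ρ.f F P + -(σ.f F P) = 0 := h4
    exact add_neg_eq_zero.1 h5
  let R : Subring K :=
    { carrier := {r | ∃ ρ : Endo W, Dv ρ r}
      mul_mem' := by
        rintro a b ⟨ρ, h1⟩ ⟨σ, h2⟩
        exact ⟨ecomp ρ σ, dv_comp h1 h2⟩
      one_mem' := ⟨eone W, dv_one⟩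
      add_mem' := by
        rintro a b ⟨ρ, h1⟩ ⟨σ, h2⟩
        exact ⟨eadd ρ σ, dv_add hW h1 h2⟩
      zero_mem' := ⟨ezero W, dv_zero⟩
      neg_mem' := by
        rintro a ⟨ρ, h1⟩
        exact ⟨eneg ρ, dv_neg hW h1⟩ }
  have hR : ∀ r : R, ∃ ρ : Endo W, Dv ρ (r : K) := fun r => r.2
  choose ch hch using hR
  let ac : ∀ (F : Type) [Field F] [DecidableEq F] [Algebra K F],
      R →+* AddMonoid.End (WL F W).Point := fun F _ _ _ =>
    { toFun := fun r => (ch r).f F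
      map_one' := by
        ext P
        have h1 : Dv (ch 1) (1 : K) := hch 1
        exact hext _ _ 1 h1 dv_one F P
      map_mul' := by
        intro r s
        ext P
        have h1 : Dv (ch (r * s)) ((r : K) * (s : K)) := hch (r * s)
        exact hext _ _ _ h1 (dv_comp (hch r) (hch s)) F P
      map_zero' := by
        ext P
        have h1 : Dv (ch 0) (0 : K) := hch 0
        exact hext _ _ 0 h1 dv_zero F P
      map_add' := by
        intro r s
        ext P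
        have h1 : Dv (ch (r + s)) ((r : K) + (s : K)) := hch (r + s)
        exact hext _ _ _ h1 (dv_add hW (hch r) (hch s)) F P }
  refine ⟨R, ac, ⟨?_, ?_, ?_⟩, ?_⟩
  · intro r F F' _ _ _ _ _ _ j P
    exact (ch r).nat F F' j P
  · intro r F _ _ _ D P
    exact hch r F D P
  · intro r hr
    obtain ⟨s, h1, h2⟩ := hcls (ch r)
    have h3 : s = (r : K) := dv_unique hG hW h1 (hch r)
    subst h3
    rcases h2 with ⟨h2, -⟩ | ⟨-, A, B, hAB, hdeg, hAF⟩
    · exact absurd (Subtype.ext h2) hr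
    · exact ⟨A, B, hAB, hdeg, fun F _ _ _ P hP => hAF F P hP⟩
  · intro hE Ω _ _ _ F _ _ _ _ _ x y h hx x' y' h' hx' hy'
    obtain ⟨ρ, c, hc, hc'⟩ := hE Ω F x y h hx x' y' h' hx' hy'
    obtain ⟨r, h1, -⟩ := hcls ρ
    refine ⟨⟨r, ρ, h1⟩, c, ?_, hc'⟩
    rw [hc]
    congr 1
    exact hext _ _ r h1 (hch ⟨r, ρ, h1⟩) F _

end

end Pool.Agent.Helper92.TG
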