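import Pool.Agent.Helper92.TG.AsmX
import Pool.Agent.Helper92.TG.MainH
import Pool.Agent.Helper92.TN.MainI
import Pool.Agent.Helper66.TG.EMB
import Pool.Agent.Helper45.TG.IPN
import Pool.Agent.Helper17.TG.DEC
import Pool.Agent.Helper35.TG.RGEN
import Pool.Agent.Helper62.TG.GPQ
import Pool.Agent.Helper91.TG.DER
import Pool.Agent.Helper43.TG.DIF
import Pool.Agent.Helper29.TG.VAL
import Pool.Agent.Helper13.TG.CONT
import Pool.Agent.Helper23.TG.EXTS
import Pool.Agent.Helper51.TG.ZER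
import Pool.Agent.Helper57.TG.DEGX
import Pool.Agent.Helper44.TG.RATA

/-!
# Project TG (MP_a41896_nt), CM version: EXR, unconditional
-/

set_option autoImplicit false

namespace Pool.Agent.Helper92.TG.MainX

open Pool.Agent.Helper92.TG
open Pool.Agent.Helper92.TN.MainI (th_ACLA th_ACLB th_ACLP)

theorem th_RGEN : RGEN :=
  Pool.Agent.Helper35.TG.RGEN.t Pool.Agent.Helper66.TG.EMB.t Pool.Agent.Helper45.TG.IPN.t
    Pool.Agent.Helper17.TG.DEC.t

theorem th_GPQ : GPQ :=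
  Pool.Agent.Helper62.TG.GPQ.t th_ACLA th_ACLB th_ACLP Pool.Agent.Helper60.T3.th_DEX

theorem th_EXTS : EXTS := Pool.Agent.Helper23.TG.EXTS.t Pool.Agent.Helper29.TG.VAL.t

theorem th_EXR : Pool.Agent.Helper42.TG.EXR :=
  exr th_RGEN (Pool.Agent.Helper91.TG.DER.t th_GPQ)
    (Pool.Agent.Helper43.TG.DIF.t Pool.Agent.Helper45.TG.IPN.t)
    (Pool.Agent.Helper51.TG.ZER.t th_EXTS)
    (Pool.Agent.Helper57.TG.DEGX.t Pool.Agent.Helper13.TG.CONT.t th_EXTS)
    (Pool.Agent.Helper44.TG.RATA.t Pool.Agent.Helper13.TG.CONT.t th_EXTS) th_GPQ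

end Pool.Agent.Helper92.TG.MainX
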